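import Pool.Agent.U365.TAU.H
import Pool.Agent.Results.MP_d48457_nt.EveryModulus
import Pool.Agent.Results.MP_391708_nt.FullConstantInClasses

/-!
# Aliquot sums, cototients and similar integers as sums of a prime and a square

Let `f` be any positive multiplicative function of moderate growth with `f(p) = p + d`, `d ≠ 0`, for all large primes `p`
(Euler's function, the sum of the divisors). There is a function `κ(m)` tending to infinity such that for almost all `m`, with
`K = κ(m)`: if `m` has a prime factor larger than `m^(1/2 + 1/(K + 1))`, then ALL the integers `n = α m + β f(m)` with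
`0 < |α|, |β| ≤ K` and `n ≥ m / (log m)^K` are the sum of a prime and a square; the product
`h = ∏_{w > 2} (1 - (n/w) / (w - 1))` over the odd primes `w` converges; and for all `y < √n` the sum of `log p` over the
solutions of `n = p + t²`, `1 ≤ t ≤ y`, is `h y + O(√n / (log n)^K)`. In particular this is so for the sum `s(m)` of the
proper divisors and for the cototient `m - φ(m)`, for at least one half of all integers `m`.

These functions are not multiplicative and nothing is known on the distribution of their values in the residue classes to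
large moduli; the values are taken with large multiplicities, so that the known theorems (almost all `n`, up to a small number
of exceptions `n ≤ X`) say nothing on them.

Proof. Write `m = k p` with the large prime factor `p`. Then `α m + β f(m) = A p + B` with `A = α k + β f(k)` and
`B = β d f(k)`, where `A` is at most `x^(1/2 - ρ)`, up to a power of the logarithm. The theorems on the sums of a prime and a
square and on the primes `|t² + a|` for almost all integers in a residue class modulo `A` (`EveryModulus`,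
`MP_391708_nt.FullConstantInClasses`, starting files) are applied for every `k`. They need that `A` has at most `(log x)^T`
divisors; this is shown for almost all `m` in `U365/TAU`, with another prime factor `v > x^δ` of `m`: `A` is a linear function
of `v`, and an inequality of Wolke and Landreau is applied.
-/

set_option autoImplicit false

namespace Pool.Agent.Results.MP_d48457_nt.AliquotSums

open Finset Filter Topology
open Pool.Agent.U365.AQG (Moderate LargePrime AlmostAll aliquot)
open Pool.Agent.U365.TAU (EBD ebd_of ebd_and ebd_forall_le ebd_mono uniform uniform_both density_uniform)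
open H359R2 (tau)

/-- The partial products of the singular series of `n = p + t²`, over the odd primes `w ≤ z`. -/
noncomputable def series (n z : ℕ) : ℝ :=
  ∏ w ∈ (Icc 3 z).filter Nat.Prime, (1 - (jacobiSym n w : ℝ) / ((w : ℝ) - 1))

/-- The sum of `log p` over the solutions of `n = p + t²` with `p` prime and `1 ≤ t ≤ y`, for `y² < n`. -/
noncomputable def reps (n y : ℕ) : ℝ :=
  ∑ t ∈ Icc 1 y, if (n - t ^ 2).Prime then Real.log ((n - t ^ 2 : ℕ) : ℝ) else 0

/-- `n = p + t²` with a prime `p`, and the number of these representations, with the weight `log p`, is the expected one, for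
all `y` with `y² < n`. -/
def Represented (K n : ℕ) : Prop :=
  (∃ p t : ℕ, p.Prime ∧ n = p + t ^ 2) ∧
  ∃ h : ℝ, Tendsto (series n) atTop (𝓝 h) ∧ ∀ y : ℕ, y ^ 2 < n →
    |reps n y - h * y| ≤ Real.sqrt n / Real.log n ^ K

/-- the formula at a scale -/
def Scale (C X n : ℕ) : Prop := Pool.Agent.Results.MP_391708_nt.FullConstantInClasses.Good C X (-(n : ℤ))

open Classical in
theorem few1 (C : ℕ) : ∀ ρ : ℝ, 0 < ρ → ∀ A T : ℕ, ∃ X₀ : ℕ, ∀ X : ℕ, X₀ ≤ X → ∀ q : ℕ, 1 ≤ q →
    (q : ℝ) ≤ (X : ℝ) ^ (1 / 2 - ρ) → (tau q : ℝ) ≤ Real.log X ^ T → ∀ a : ℤ, (Int.gcd a q : ℝ) ≤ Real.log X ^ T →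
      (((Icc 1 X).filter (fun n : ℕ => (n : ℤ) ≡ a [ZMOD q] ∧ ¬ Scale C X n)).card : ℝ) ≤
        X / (q * Real.log X ^ A) := by
  intro ρ hρ A T
  obtain ⟨X₀, h0⟩ := Pool.Agent.Results.MP_391708_nt.FullConstantInClasses.result ρ hρ A C T
  refine ⟨X₀, fun X hX q hq hqX hτ a ha => ?_⟩
  have e2 := h0 X hX q hq hqX hτ (-a) (by rwa [Int.neg_gcd])
  unfold Pool.Agent.Results.MP_391708_nt.FullConstantInClasses.exceptions at e2
  refine le_trans (Nat.cast_le.2 ?_) e2
  apply card_le_card_of_injOn (fun n : ℕ => -(n : ℤ))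
  · intro n hn
    rw [mem_coe, mem_filter, mem_Icc] at hn
    show (-(n : ℤ)) ∈ _
    rw [mem_coe, mem_filter, mem_Icc]
    exact ⟨⟨by omega, by omega⟩, hn.2.1.neg, hn.2.2⟩
  · intro n _ m _ h
    have h' : (-(n : ℤ)) = -(m : ℤ) := h
    have h'' : (n : ℤ) = m := neg_injective h'
    exact_mod_cast h''

/-- the existence at a scale -/
def Exi (_C _X n : ℕ) : Prop := ∃ p t : ℕ, p.Prime ∧ n = p + t ^ 2

open Classical in
theorem few2 (C : ℕ) : ∀ ρ : ℝ, 0 < ρ → ∀ A T : ℕ, ∃ X₀ : ℕ, ∀ X : ℕ, X₀ ≤ X → ∀ q : ℕ, 1 ≤ q →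
    (q : ℝ) ≤ (X : ℝ) ^ (1 / 2 - ρ) → (tau q : ℝ) ≤ Real.log X ^ T → ∀ a : ℤ, (Int.gcd a q : ℝ) ≤ Real.log X ^ T →
      (((Icc 1 X).filter (fun n : ℕ => (n : ℤ) ≡ a [ZMOD q] ∧ ¬ Exi C X n)).card : ℝ) ≤
        X / (q * Real.log X ^ A) := by
  intro ρ hρ A T
  obtain ⟨B, hB⟩ := Pool.Agent.Results.MP_d48457_nt.EveryModulus.result ρ hρ A C T
  obtain ⟨X₀, h0⟩ := hB (B + 1)
  obtain ⟨X₁, h1⟩ := eventually_atTop.1 ((Real.tendsto_log_atTop.comp
    (tendsto_natCast_atTop_atTop (R := ℝ))).eventually_ge_atTop (2 : ℝ))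
  refine ⟨X₀ + X₁ + 1, fun X hX q hq hqX hτ a ha => ?_⟩
  have hL : 2 ≤ Real.log (X : ℝ) := h1 X (by omega)
  have hB1 : 1 ≤ Real.log (X : ℝ) ^ B := one_le_pow₀ (by linarith)
  have hq0 : (0 : ℤ) < q := by exact_mod_cast hq
  have hnn : 0 ≤ a % q := Int.emod_nonneg _ hq0.ne'
  have hcast : (((a % q).toNat : ℕ) : ℤ) = a % q := Int.toNat_of_nonneg hnn
  have e2 := h0 X (by omega) ⌈Real.log (X : ℝ) ^ B⌉₊ (Nat.le_ceil _) (by
      have e3 : ((⌈Real.log (X : ℝ) ^ B⌉₊ : ℕ) : ℝ) ≤ Real.log (X : ℝ) ^ B + 1 :=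
        (Nat.ceil_lt_add_one (by linarith)).le
      have e4 : Real.log (X : ℝ) ^ (B + 1) = Real.log X ^ B * Real.log X := pow_succ _ _
      rw [e4]
      nlinarith) q hq hqX hτ (a % q).toNat (by
      have e5 : Nat.gcd (a % q).toNat q = Int.gcd a q := by
        rw [← Int.gcd_emod a q, ← Int.gcd_natCast_natCast, hcast]
      rw [e5]
      exact ha)
  unfold Pool.Agent.Results.MP_d48457_nt.EveryModulus.exceptions at e2
  refine le_trans (Nat.cast_le.2 (card_le_card ?_)) e2
  intro n hn
  rw [mem_filter] at hn ⊢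
  refine ⟨hn.1, ?_, fun hg => hn.2.2 hg.1⟩
  have h3 : (n : ℤ) ≡ ((a % q).toNat : ℕ) [ZMOD q] := by
    rw [hcast]
    exact hn.2.1.trans (Int.mod_modEq a q).symm
  exact Int.natCast_modEq_iff.1 h3

theorem ebd (K : ℕ) : EBD (1 / 2) (Represented K) := by
  have hexi : EBD (1 / 2) (fun n => ∃ p t : ℕ, p.Prime ∧ n = p + t ^ 2) :=
    ebd_of (1 / 2) (by norm_num) (by norm_num) 0 (fun C X n => Exi C X n) _ (fun ρ hρ A C T => few2 C ρ hρ A T)
      (fun A => ⟨0, 0, fun X _ n _ _ _ h => h⟩)
  have hform : EBD (1 / 2) (fun n => ∃ h : ℝ, Tendsto (series n) atTop (𝓝 h) ∧ ∀ y : ℕ, y ^ 2 < n →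
      |reps n y - h * y| ≤ Real.sqrt n / Real.log n ^ K) := by
    refine ebd_of (1 / 2) (by norm_num) (by norm_num) 0 (fun C' X n => Scale C' X n) _
      (fun ρ hρ A C' T => few1 C' ρ hρ A T) (fun A => ?_)
    obtain ⟨X₁, hX₁⟩ := eventually_atTop.1 ((Real.tendsto_log_atTop.comp
      (tendsto_natCast_atTop_atTop (R := ℝ))).eventually_ge_atTop (1 : ℝ))
    obtain ⟨X₂, hX₂⟩ := eventually_atTop.1 ((Pool.Agent.R460.GS.real_log A (s := 1 / 2) (by norm_num) ((X₁ : ℝ) + 1)))
    obtain ⟨X₃, hX₃⟩ := exists_nat_ge X₂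
    refine ⟨A + K, X₁ + X₃ + X₁ ^ 2 + 1, fun X hX n hn hnA hnK hg => ?_⟩
    have hL1 : 1 ≤ Real.log (X : ℝ) := hX₁ X (by omega)
    obtain ⟨g1, g2⟩ := hX₂ X (hX₃.trans (by exact_mod_cast (by omega : X₃ ≤ X)))
    have hX0 : (0 : ℝ) < X := by exact_mod_cast (by omega : 0 < X)
    have hLA : 0 < Real.log (X : ℝ) ^ A := by positivity
    have hnr : (0 : ℝ) < n := by exact_mod_cast hn
    have hnn : X₁ ≤ n := by
      have e1 : (X₁ : ℝ) ≤ n := by
        refine le_trans ?_ hnA
        rw [le_div_iff₀ hLA]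
        have e2 : (X₁ : ℝ) ≤ (X : ℝ) ^ (1 / 2 : ℝ) := by
          have e3 : (((X₁ ^ 2 : ℕ) : ℝ)) ^ (1 / 2 : ℝ) = X₁ := by
            push_cast
            rw [← Real.sqrt_eq_rpow, Real.sqrt_sq (Nat.cast_nonneg _)]
          rw [← e3]
          apply Real.rpow_le_rpow (Nat.cast_nonneg _) _ (by norm_num)
          exact_mod_cast (by omega : X₁ ^ 2 ≤ X)
        calc (X₁ : ℝ) * Real.log X ^ A ≤ (X : ℝ) ^ (1 / 2 : ℝ) * (X : ℝ) ^ (1 / 2 : ℝ) :=
              mul_le_mul e2 g2 (by positivity) (by positivity)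
          _ = X := by
              rw [← Real.rpow_add hX0]
              norm_num
      exact_mod_cast e1
    have hln : 1 ≤ Real.log (n : ℝ) := hX₁ n hnn
    have hnX : (n : ℝ) ≤ X := by
      rw [pow_zero, mul_one] at hnK
      exact hnK
    have hlnX : Real.log (n : ℝ) ≤ Real.log X := Real.log_le_log hnr hnX
    have herr : Real.sqrt X / Real.log X ^ (A + K) ≤ Real.sqrt n / Real.log n ^ K := by
      have e1 : Real.sqrt X ≤ Real.sqrt n * Real.log X ^ A := by
        have e2 : (X : ℝ) ≤ n * Real.log X ^ A := by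
          rwa [div_le_iff₀ hLA] at hnA
        calc Real.sqrt X ≤ Real.sqrt (n * Real.log X ^ A) := Real.sqrt_le_sqrt e2
          _ = Real.sqrt n * Real.sqrt (Real.log X ^ A) := Real.sqrt_mul hnr.le _
          _ ≤ Real.sqrt n * Real.log X ^ A := by
              apply mul_le_mul_of_nonneg_left _ (Real.sqrt_nonneg _)
              rw [Real.sqrt_le_left hLA.le]
              have : 1 ≤ Real.log (X : ℝ) ^ A := one_le_pow₀ hL1
              nlinarith
      calc Real.sqrt X / Real.log X ^ (A + K) ≤ (Real.sqrt n * Real.log X ^ A) / Real.log X ^ (A + K) :=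
            div_le_div_of_nonneg_right e1 (by positivity)
        _ = Real.sqrt n / Real.log X ^ K := by
            rw [pow_add]
            field_simp
        _ ≤ Real.sqrt n / Real.log n ^ K := by
            apply div_le_div_of_nonneg_left (Real.sqrt_nonneg _) (by positivity)
            exact pow_le_pow_left₀ (by linarith) hlnX K
    obtain ⟨-, h, h1, h2⟩ := hg
    refine ⟨h, ?_, fun y hy => ?_⟩
    · unfold Pool.Agent.Results.MP_391708_nt.FullConstantInClasses.IsConstant at h1
      refine h1.congr (fun z => ?_)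
      unfold Pool.Agent.Results.MP_391708_nt.FullConstantInClasses.product series
      rw [neg_neg]
    · have hyX : y ^ 2 ≤ X := by
        have : n ≤ X := by exact_mod_cast hnX
        omega
      have h3 := h2 y hyX
      have h4 : Pool.Agent.Results.MP_391708_nt.FullConstantInClasses.theta (-(n : ℤ)) y = reps n y := by
        unfold Pool.Agent.Results.MP_391708_nt.FullConstantInClasses.theta reps
        apply sum_congr rfl
        intro t ht
        rw [mem_Icc] at ht
        have e1 : t ^ 2 < n := lt_of_le_of_lt (Nat.pow_le_pow_left ht.2 2) hy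
        have e2 : ((t : ℤ) ^ 2 + -(n : ℤ)).natAbs = n - t ^ 2 := by
          have e3 : ((t : ℤ) ^ 2 + -(n : ℤ)) = -(((n - t ^ 2 : ℕ) : ℤ)) := by
            rw [Nat.cast_sub e1.le]
            push_cast
            ring
          rw [e3, Int.natAbs_neg, Int.natAbs_natCast]
        rw [e2]
      rw [h4] at h3
      exact h3.trans herr
  exact ebd_mono (ebd_and hexi hform) (fun n hn => ⟨hn.1, hn.2⟩)

open Classical in
/-- **Aliquot sums, cototients and similar integers as sums of a prime and a square.** (1) Let `f` be a positive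
multiplicative function of moderate growth with `f p = p + d`, `d ≠ 0`, for all large primes `p`. There is a function `κ`
tending to infinity such that for almost all `m`, with `K = κ m`: if `m` has a prime factor `≥ m^(1/2 + 1/(K + 1))`, then
`Represented K n` for ALL integers `n = α m + β f(m) ≥ m / (log m)^K` with nonzero integers `|α|, |β| ≤ K`. (2) Euler's
function and the sum of the divisors are examples. (3) There is a function `κ` tending to infinity such that for almost all
`m`, with `K = κ m`: if `m` has a prime factor `≥ m^(1/2 + 1/(K + 1))`, then `Represented K n` for `n = s(m)` and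
`n = m - φ(m)`. For every `δ < 1/2` the proportion of the `m ≤ N` for which this conclusion holds is at least `δ` for all
large `N`. -/
theorem result :
    (∀ (f : ℕ → ℕ) (d : ℤ), Moderate f d → d ≠ 0 → ∃ κ : ℕ → ℕ, Tendsto κ atTop atTop ∧
      AlmostAll (fun m => LargePrime (1 / 2 + 1 / ((κ m : ℝ) + 1)) m → ∀ α β : ℤ, α ≠ 0 → β ≠ 0 → |α| ≤ κ m → |β| ≤ κ m →
        (m : ℝ) / Real.log m ^ κ m ≤ ((α * m + β * f m : ℤ) : ℝ) →
          ∀ n : ℕ, (n : ℤ) = α * m + β * f m → Represented (κ m) n)) ∧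
    (Moderate Nat.totient (-1) ∧ Moderate (fun m => ∑ d ∈ m.divisors, d) 1) ∧
    ∃ κ : ℕ → ℕ, Tendsto κ atTop atTop ∧
      AlmostAll (fun m => LargePrime (1 / 2 + 1 / ((κ m : ℝ) + 1)) m →
        Represented (κ m) (aliquot m) ∧ Represented (κ m) (m - Nat.totient m)) ∧
      ∀ δ : ℝ, δ < 1 / 2 → ∃ N₀ : ℕ, ∀ N : ℕ, N₀ ≤ N → δ * N ≤
        (((Icc 1 N).filter (fun m : ℕ => Represented (κ m) (aliquot m) ∧ Represented (κ m) (m - Nat.totient m))).card : ℝ) := by
  have hE : ∀ j, EBD (1 / 2) (fun n => ∀ i ≤ j, Represented i n) := fun j => ebd_forall_le ebd j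
  have hmono : ∀ i j n : ℕ, i ≤ j → (∀ l ≤ j, Represented l n) → ∀ l ≤ i, Represented l n :=
    fun i j n hij h l hl => h l (hl.trans hij)
  refine ⟨fun f d hf hd => ?_, ⟨Pool.Agent.U365.AQG.moderate_totient, Pool.Agent.U365.AQG.moderate_sigma⟩, ?_⟩
  · obtain ⟨κ, h1, h2⟩ := uniform (1 / 2) (by norm_num) (by norm_num) _ hmono hE hf hd
    rw [show (1 - 1 / 2 : ℝ) = 1 / 2 by norm_num] at h2
    refine ⟨κ, h1, Pool.Agent.U365.AQG.almostAll_and h2 h2 0 (fun m _ h3 _ hl α β hα hβ hα1 hβ1 hg n hn => ?_)⟩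
    have h4 := h3 hl α β hα hβ hα1 hβ1 hg (κ m) le_rfl
    rw [← hn, Int.toNat_natCast] at h4
    exact h4
  · obtain ⟨κ, h1, h2⟩ := uniform_both (1 / 2) (by norm_num) (by norm_num) _ hmono hE
    have h3 : AlmostAll (fun m => LargePrime (1 - 1 / 2 + 1 / ((κ m : ℝ) + 1)) m →
        Represented (κ m) (aliquot m) ∧ Represented (κ m) (m - Nat.totient m)) := by
      refine Pool.Agent.U365.AQG.almostAll_and h2 h2 0 (fun m _ h3 _ hl => ?_)
      obtain ⟨⟨-, a1⟩, -, a2⟩ := h3 hl
      exact ⟨a1 _ le_rfl, a2 _ le_rfl⟩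
    refine ⟨κ, h1, ?_, fun δ hδ => ?_⟩
    · rw [show (1 - 1 / 2 : ℝ) = 1 / 2 by norm_num] at h3
      exact h3
    · obtain ⟨N₀, h⟩ := density_uniform (1 / 2) (by norm_num) _ κ h1 h3 δ hδ
      exact ⟨N₀, fun N hN => (h N hN).trans (Nat.cast_le.2 (Pool.Agent.U365.AQG.card_mono' (fun m hm => hm)))⟩

end Pool.Agent.Results.MP_d48457_nt.AliquotSums
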