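import Mathlib
import Pool.Agent.U288.SP.Cl0
import Pool.Agent.U288.SP.Cl4

/-!
# Representations `N = p + n²`: shifted primes as the distances of the roots `n`, for almost all `N`

Fix `k ≥ 1` and `σ = 1` or `σ = -1`, and consider the patterns `0 = h 0 < h 1 < ... < h k ≤ Y` all of whose
`k (k + 1) / 2` distances are shifted primes: `h j - h i + σ` is a PRIME for all `i < j`. There are at most
`c' Y ^ k / (log Y) ^ (k (k + 1) / 2)` of them. The theorem: for all large `Y`, at least
`c Y ^ k / (log Y) ^ (k (k + 1) / 2)` of them, `c > 0`, so a positive proportion, are patterns of `k + 1` roots of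
representations of `N` as the sum of a prime and a square, for ALMOST ALL integers `N`, and this in short windows just
below `√N`: there is a `u` with `√N - J - (log X) ^ B ≤ u ≤ √N - J` such that all the numbers `N - (u + h i)²`,
`0 ≤ i ≤ k`, are primes. Here `N` runs through all the integers up to `X` with at most `ε X` exceptions, `J` is any
number `≤ (log X) ^ C`, and in fact one may take at the same time almost all members `J` of any set `W` of such numbers.
Neither `c` nor `B` depends on `Y`, `C`, `ε`.

For `k = 1`: for a positive proportion of the numbers `h = q - 1`, `q ≤ Y` prime (and of the numbers `h = q + 1`) almost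
every `N` (the set of these `h` may depend on `N`) is the sum of a prime and a square in two ways,
`N = p + u² = p' + (u + h)²`.

What is new. The library (starting files, `N913.MG.primeSquare`) contains a theorem of Maynard-Tao type: in every set
`S` of `K(k)` integers there are for almost all `N` SOME `k + 1` elements `h` with `N - (u + h)²` prime. It gives nothing
for a set of patterns of density zero which, as the one considered here, does not contain all the patterns of `k + 1`
elements of one large set, and it does not count. Own mathematics (`Pool.Agent.U288.SP`): the lower bound of the right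
order for the number of the sets of `D` integers up to `Y` all of whose distances are shifted primes, the upper bound of
the right order for the number of PAIRS of such sets which have `k + 1` given elements in common (Selberg sieve for
systems of linear forms, averaged), and the passage from clusters to patterns by the inequality of Cauchy and Schwarz,
uniformly in `N` (`Cl1.lean`, `Cl3.lean`, `Cl4.lean`).
-/

set_option autoImplicit false

namespace Pool.Agent.Results.MP_d48457_nt.ShiftedPrimeRoots

open Filter Finset

open Classical in
/-- The patterns `0 = h 0 < h 1 < ... < h k ≤ Y` with `h j - h i + σ` prime for all `i < j` (no condition if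
`σ = 0`). -/
noncomputable def patterns (σ : ℤ) (k Y : ℕ) : Finset (Fin (k + 1) → ℕ) :=
  (Fintype.piFinset (fun _ : Fin (k + 1) => range (Y + 1))).filter (fun h => h 0 = 0 ∧ StrictMono h ∧
    ∀ i j, i < j → σ ≠ 0 → ((h j : ℤ) - h i + σ).toNat.Prime)

/-- The number of the conditions: `k (k + 1) / 2` if `σ ≠ 0`, and `0` if `σ = 0`. -/
def conditions (σ : ℤ) (k : ℕ) : ℕ := if σ = 0 then 0 else k * (k + 1) / 2

/-- The pattern `h` occurs among the roots below `√N`: there is an integer `u ≥ 0` in the window
`[√N - J - (log X) ^ B, √N - J]` such that all the numbers `N - (u + h i)²` are primes (in particular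
`u + h i < √N`). -/
def Occurs {k : ℕ} (X B N J : ℕ) (h : Fin (k + 1) → ℕ) : Prop :=
  ∃ u : ℕ, Real.sqrt N - J - Real.log X ^ B ≤ u ∧ (u : ℝ) ≤ Real.sqrt N - J ∧ ∀ i, (N - (u + h i) ^ 2).Prime

open Classical in
/-- **For almost all `N` a positive proportion of the patterns made of shifted primes occurs among the roots `n` of the
representations `N = p + n²`, in short windows below `√N`.** -/
theorem result (k : ℕ) (σ : ℤ) (hσ : σ = 0 ∨ σ = 1 ∨ σ = -1) :
    ∃ (c c' : ℝ) (B : ℕ), 0 < c ∧ ∀ᶠ Y : ℕ in atTop,
      ((patterns σ k Y).card : ℝ) ≤ c' * ((Y : ℝ) ^ k / Real.log Y ^ conditions σ k) ∧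
      ∀ (C : ℕ) (ε : ℝ), 0 < ε → ∃ X₀ : ℕ, ∀ X : ℕ, X₀ ≤ X →
        ∀ W : Finset ℕ, (∀ J ∈ W, (J : ℝ) ≤ Real.log X ^ C) →
        ∃ Bad ⊆ Icc 1 X, (Bad.card : ℝ) ≤ ε * X ∧ ∀ N ∈ Icc 1 X, N ∉ Bad →
          ∃ G ⊆ W, (1 - ε) * W.card ≤ G.card ∧ ∀ J ∈ G,
            c * ((Y : ℝ) ^ k / Real.log Y ^ conditions σ k) ≤
              (((patterns σ k Y).filter (fun h => Occurs X B N J h)).card : ℝ) := by
  obtain ⟨c, c', B, hc, h⟩ := Pool.Agent.U288.SP.square_shifts k σ hσ
  rw [Pool.Agent.U288.SP.edg_const] at h
  exact ⟨c, c', B, hc, h⟩

end Pool.Agent.Results.MP_d48457_nt.ShiftedPrimeRoots
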