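import Pool.Agent.U918.SG.Multi

/-!
# `N - m²` for `m` in an arbitrary set `S`: only the small primes matter

The question asks for representations `N = p + m²` of the even numbers `N`. Let `X` be large, `M` the product of the
primes `≤ y`, where `y` is comparable to `log log X` (so `M` is a power of `log X`), and let `S` be an ARBITRARY set of
integers `1 ≤ m ≤ X`. Then in EVERY residue class `a` modulo `M` almost all integers `N ≡ a`,
`X² < N ≤ X² log ^ B X`, in windows of length at least `X² / log ^ C X`, are such that the number of `m ∈ S` for which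
`N - m²` is prime is asymptotically the number of `m ∈ S` for which `a - m²` is prime to `M`, divided by
`2 V log X`, `V = ∏_{q ≤ y} (1 - 1/q)`, up to an error `ε` times this number plus `X / log ^ D X`. The same holds for
several integers `N₁, …, N_r` at once: the number of `m ∈ S` for which all `N_i - m²` are prime.
-/

set_option autoImplicit false

open Finset

namespace Pool.Agent.Results.MP_d48457_nt.SmallModuliSquares

/-- the product of `1 - 1/q` over the primes `q ≤ y` -/
noncomputable def V (y : ℕ) : ℝ := ∏ q ∈ (Icc 1 y).filter Nat.Prime, (1 - 1 / (q : ℝ))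

/-- the `m ∈ S` for which all the numbers `N i - m²` are prime -/
noncomputable def Primes {r : ℕ} (S : Finset ℕ) (N : Fin r → ℕ) : Finset ℕ :=
  open Classical in S.filter (fun m => ∀ i, (N i - m ^ 2).Prime)

/-- the `m ∈ S` for which all the numbers `N i - m²` are prime to `M` -/
noncomputable def Sifted {r : ℕ} (M : ℕ) (S : Finset ℕ) (N : Fin r → ℕ) : Finset ℕ :=
  open Classical in S.filter (fun m => ∀ i, (N i - m ^ 2).Coprime M)

/-- **The theorem.** For all `r`, `B`, `C`, `D`, `0 < ε ≤ 1` there is `K₀` such that for every `K₁`, every large `X`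
and every `y` between `K₀ log log X` and `K₁ log log X`, with `M` the product of the primes `≤ y`, the following
holds. Let `S` be any set of integers `1 ≤ m ≤ X`, and let `H i`, `G i` be integers with `X² < H i`,
`H i + M G i ≤ X² log ^ B X` and `X² ≤ M (G i) log ^ C X`. For all but at most `ε ∏ G i` of the vectors `g`,
`1 ≤ g i ≤ G i`, the number of the `m ∈ S` for which all the numbers `H i + M g i - m²` are prime differs from
`S' / (2 V y log X) ^ r`, where `S'` is the number of the `m ∈ S` for which all the numbers `H i - m²` are prime to `M`,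
by at most `ε S' / (2 V y log X) ^ r + X / log ^ D X`. -/
theorem result (r B C D : ℕ) (ε : ℝ) (hε : 0 < ε) (hε1 : ε ≤ 1) :
    ∃ K₀ : ℕ, ∀ K₁ : ℕ, ∃ X₀ : ℕ, ∀ X : ℕ, X₀ ≤ X →
    ∀ y : ℕ, K₀ * Real.log (Real.log X) ≤ y → y ≤ K₁ * Real.log (Real.log X) →
    ∀ S : Finset ℕ, S ⊆ Icc 1 X → ∀ H G : Fin r → ℕ, (∀ i, X ^ 2 < H i) →
    (∀ i, ((H i + primorial y * G i : ℕ) : ℝ) ≤ X ^ 2 * Real.log X ^ B) →
    (∀ i, (X : ℝ) ^ 2 ≤ primorial y * G i * Real.log X ^ C) →
      (((Fintype.piFinset (fun i => Icc 1 (G i))).filter (fun g =>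
        ε * ((Sifted (primorial y) S H).card / (2 * (V y * Real.log X)) ^ r) + X / Real.log X ^ D <
        |((Primes S (fun i => H i + primorial y * g i)).card : ℝ) -
          (Sifted (primorial y) S H).card / (2 * (V y * Real.log X)) ^ r|)).card : ℝ) ≤
      ε * ∏ i, (G i : ℝ) := by
  obtain ⟨K₀, hK₀⟩ := Pool.Agent.U918.SG.mainG r (fun _ => false) (fun _ => 1) (fun _ => 0) (fun _ => by norm_num)
    B C D ε hε hε1
  refine ⟨K₀, fun K₁ => ?_⟩
  obtain ⟨x₀, hx₀⟩ := hK₀ K₁
  obtain ⟨n1, hn1⟩ := Pool.Agent.H373R2.T7.ev_L' 1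
  refine ⟨max x₀ n1, fun x hx y hy1 hy2 S hS H G a0 a1 a2 => ?_⟩
  have hL := hn1 x (le_trans (le_max_right _ _) hx)
  have hq : ∀ s : ℕ, Pool.Agent.U918.SG.qf 1 0 s = s ^ 2 := fun s => by
    unfold Pool.Agent.U918.SG.qf
    ring
  have hd : Pool.Agent.U918.SG.dg 1 = 2 := rfl
  have hv : ∀ s h : ℕ, Pool.Agent.U918.SG.vl false 1 0 s h = h - s ^ 2 := fun s h => by
    unfold Pool.Agent.U918.SG.vl
    simp only [Bool.false_eq_true, if_false]
    rw [hq]
  have key := hx₀ x (le_trans (le_max_left _ _) hx) y hy1 hy2 S (fun _ p => p)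
    (fun _ => Set.injOn_id _)
    (fun _ p hp => by
      have h1 := mem_Icc.1 (hS hp)
      refine ⟨h1.1, ?_⟩
      have h2 : (p : ℝ) ≤ x := by exact_mod_cast h1.2
      exact h2.trans (le_mul_of_one_le_right (Nat.cast_nonneg _) (one_le_pow₀ hL)))
    H G (fun i _ p hp => by
      rw [hq]
      exact lt_of_le_of_lt (Nat.pow_le_pow_left (mem_Icc.1 (hS hp)).2 2) (a0 i))
    (fun i => by rw [hd]; exact a1 i) (fun i => by rw [hd]; exact a2 i)
    (fun g => Primes S (fun i => H i + primorial y * g i))
    (fun _ => Sifted (primorial y) S H)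
    (fun g => by unfold Primes; exact filter_subset _ _)
    (fun g => by unfold Sifted; exact filter_subset _ _)
    (fun g p hp => by
      simp only [Primes, mem_filter, hv]
      exact ⟨fun h => h.2, fun h => ⟨hp, h⟩⟩)
    (fun g p hp => by
      simp only [Sifted, mem_filter, hv]
      exact ⟨fun h => h.2, fun h => ⟨hp, h⟩⟩)
  refine le_trans (le_of_eq ?_) key
  have h1 : ∏ _i : Fin r, ((Pool.Agent.U918.SG.dg 1 : ℝ) * (Pool.Agent.H373R2.T7.Vz y * Real.log x)) =
      (2 * (V y * Real.log x)) ^ r := by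
    rw [prod_const, card_univ, Fintype.card_fin, hd]
    push_cast
    rfl
  rw [h1]

end Pool.Agent.Results.MP_d48457_nt.SmallModuliSquares
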