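import Pool.Agent.U163.SU.Uni

/-!
# Every large even `n` is an almost prime plus the square of `p` or `3 p`, `p` in strings of consecutive primes

The question asks whether every large even `n` which is not a square is a prime plus a square. If `n ≡ 1 (mod 3)` then
the root of the square is divisible by `3` (if the prime is not `3`). Here the root is `e p` with `e = 3` if
`n ≡ 1 (mod 3)` and `e = 1` otherwise, the other summand `n - (e p)²` is an almost prime (a bounded number of prime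
factors, all larger than a power of `n`), and `p` runs through strings of consecutive primes: for EVERY large even `n`
and every scale `n ^ (1 / A) ≤ N < √n / (2 e)` a positive proportion of the patterns `H` of `m` elements of any given
large finite set are patterns of consecutive primes `x + h`, `h ∈ H`, of this kind, each for at least
`N / (log N) ^ B` of the `x` in `(N, 2 N]`. There is no exceptional `n`.

The starting files of this problem have few exceptional `n` (`SquarePlusAlmostPrime`), and no conditions on the root.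

Proof. The theorem `R498.MP.stringsUR` of the starting library (Maynard-Tao theorem for strings of consecutive
primes with almost prime polynomial values, uniformly in the polynomial; it is used by starting hand-ins only for
Goldbach's problem) is applied to `n - e² X²`; the proportion of the patterns follows by double counting
(`Helper32K9.Str`).
-/

set_option autoImplicit false

namespace Pool.Agent.Results.MP_d48457_nt.SquaresOfPrimes

open Finset Filter Polynomial

/-- `n` has at most `r` prime factors, counted with multiplicity, all of them at least `w`. -/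
def AlmostPrime (r : ℕ) (w : ℝ) (n : ℕ) : Prop :=
  n.primeFactorsList.length ≤ r ∧ ∀ q : ℕ, q.Prime → q ∣ n → w ≤ q

/-- `3` if `n ≡ 1` modulo `3`, and `1` otherwise -/
def mult (n : ℕ) : ℕ := if n % 3 = 1 then 3 else 1

/-- The integers `x` with `N < x`, `x + max H ≤ 2 N`, such that the primes in the interval `[x, x + max H]` are
exactly the numbers `x + h`, `h ∈ H`, all of them are `≡ a` modulo `q`, and for all of them the number
`n - (e (x + h))²`, `e = mult n`, is positive and has at most `r` prime factors, all of them at least `N ^ δ`. -/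
def places (n N q a r : ℕ) (δ : ℝ) (H : Finset ℕ) : Set ℕ :=
  {x | N < x ∧ x + H.sup id ≤ 2 * N ∧ (∀ y ≤ H.sup id, (x + y).Prime ↔ y ∈ H) ∧
    ∀ h ∈ H, x + h ≡ a [MOD q] ∧ (mult n * (x + h)) ^ 2 < n ∧
      AlmostPrime r ((N : ℝ) ^ δ) (n - (mult n * (x + h)) ^ 2)}

/-- the polynomial -/
noncomputable def fam (n : ℕ) : ℤ[X] := C (n : ℤ) - C ((mult n : ℤ) ^ 2) * X ^ 2

theorem fam_eval (n : ℕ) (x : ℤ) : (fam n).eval x = n - (mult n * x) ^ 2 := by
  unfold fam
  simp
  ring

theorem fam_deg (n : ℕ) : (fam n).natDegree ≤ 2 := by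
  unfold fam
  refine (natDegree_sub_le _ _).trans (max_le ?_ (natDegree_C_mul_X_pow_le _ _))
  rw [natDegree_C]
  omega

theorem fam_adm (n : ℕ) (hn : Even n) (p : ℕ) (hp : p.Prime) :
    ∃ x : ℤ, ¬ (p : ℤ) ∣ x ∧ ¬ (p : ℤ) ∣ (fam n).eval x := by
  have hpZ : Prime (p : ℤ) := Nat.prime_iff_prime_int.1 hp
  have h1 : ¬ (p : ℤ) ∣ 1 := fun h => hp.one_lt.ne' (Nat.dvd_one.1 (by exact_mod_cast h))
  obtain ⟨k, hk⟩ := hn
  by_cases hp2 : p = 2
  · subst hp2
    refine ⟨1, h1, ?_⟩
    rw [fam_eval]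
    unfold mult
    split_ifs <;> (push_cast; omega)
  have h2 : ¬ (p : ℤ) ∣ 2 := by
    intro h
    have : p ∣ 2 := by exact_mod_cast h
    exact hp2 ((Nat.prime_dvd_prime_iff_eq hp Nat.prime_two).1 this)
  by_cases hp3 : p = 3
  · subst hp3
    refine ⟨1, h1, ?_⟩
    rw [fam_eval]
    unfold mult
    split_ifs <;> (push_cast; omega)
  have h3 : ¬ (p : ℤ) ∣ 3 := by
    intro h
    have : p ∣ 3 := by exact_mod_cast h
    exact hp3 ((Nat.prime_dvd_prime_iff_eq hp Nat.prime_three).1 this)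
  have he : ¬ (p : ℤ) ∣ (mult n : ℤ) := by
    unfold mult
    split_ifs
    · exact_mod_cast h3
    · exact_mod_cast h1
  by_contra hcon
  push Not at hcon
  have e1 := hcon 1 h1
  have e2 := hcon 2 h2
  rw [fam_eval] at e1 e2
  have e3 : (p : ℤ) ∣ 3 * (mult n : ℤ) ^ 2 := by
    have := dvd_sub e1 e2
    ring_nf at this
    rwa [mul_comm]
  rcases hpZ.dvd_or_dvd e3 with h4 | h4
  · exact h3 h4
  · exact he (hpZ.dvd_of_dvd_pow h4)

theorem mult_le (n : ℕ) : mult n ≤ 3 := by
  unfold mult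
  split_ifs <;> omega

theorem mult_pos (n : ℕ) : 1 ≤ mult n := by
  unfold mult
  split_ifs <;> omega

theorem fam_bd (n N A : ℕ) (hN : 3 ≤ N) (hn : n ≤ N ^ A) (x : ℤ)
    (hx : |x| ≤ 2 * N) : |(fam n).eval x| ≤ (N : ℤ) ^ (A + 6) := by
  rw [fam_eval]
  have hN' : (3 : ℤ) ≤ N := by exact_mod_cast hN
  have hn' : (n : ℤ) ≤ (N : ℤ) ^ A := by exact_mod_cast hn
  have h1 : (1 : ℤ) ≤ (N : ℤ) ^ A := one_le_pow₀ (by linarith)
  have he : |(mult n : ℤ)| ≤ 3 := by
    rw [Nat.abs_cast]
    exact_mod_cast mult_le n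
  have hx3 : |(mult n * x) ^ 2| ≤ ((6 : ℤ) * (N : ℤ)) ^ 2 := by
    rw [abs_pow, abs_mul]
    calc (|(mult n : ℤ)| * |x|) ^ 2 ≤ ((3 : ℤ) * (2 * (N : ℤ))) ^ 2 := by gcongr
      _ = ((6 : ℤ) * (N : ℤ)) ^ 2 := by ring
  have hN6 : ((6 : ℤ) * (N : ℤ)) ^ 2 + 1 ≤ (N : ℤ) ^ 6 := by
    have h81 : (81 : ℤ) ≤ (N : ℤ) ^ 4 := by
      calc (81 : ℤ) = 3 ^ 4 := by norm_num
        _ ≤ (N : ℤ) ^ 4 := by gcongr
    have h27 : (1 : ℤ) ≤ (N : ℤ) ^ 2 := one_le_pow₀ (by linarith)
    calc ((6 : ℤ) * (N : ℤ)) ^ 2 + 1 = 36 * (N : ℤ) ^ 2 + 1 := by ring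
      _ ≤ 81 * (N : ℤ) ^ 2 := by linarith
      _ ≤ (N : ℤ) ^ 4 * (N : ℤ) ^ 2 := by gcongr
      _ = (N : ℤ) ^ 6 := by ring
  calc |(n : ℤ) - (mult n * x) ^ 2| ≤ |(n : ℤ)| + |(mult n * x) ^ 2| := abs_sub _ _
    _ ≤ (N : ℤ) ^ A + ((6 : ℤ) * (N : ℤ)) ^ 2 := by
        rw [Nat.abs_cast]
        exact add_le_add hn' hx3
    _ ≤ (N : ℤ) ^ A * (((6 : ℤ) * (N : ℤ)) ^ 2 + 1) := by
        nlinarith [pow_nonneg (by linarith : (0 : ℤ) ≤ 6 * (N : ℤ)) 2]
    _ ≤ (N : ℤ) ^ A * (N : ℤ) ^ 6 := by gcongr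
    _ = (N : ℤ) ^ (A + 6) := by rw [pow_add]

/-- **Every large even `n` is an almost prime plus the square of `p` or `3 p`, for `p` in strings of consecutive
primes.** Let `m ≥ 1` and let `q` be squarefree. There are `K`, `B` and `δ > 0` such that for every `A` there is an `r`
such that for every finite set `T` of at least `K` nonnegative integers and all large even `n`, with `e = 3` if
`n ≡ 1 (mod 3)` and `e = 1` otherwise, the following holds for all `N` with `n ^ (1 / A) ≤ N`, `(2 e N)² < n`, and all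
`a` for which `a (n - (e a)²)` is prime to `q` (for instance `q = 1`): for at least the proportion `1 / K` of the
subsets `H` of `T` with `m` elements there are at least `N / (log N) ^ B` integers `x`, `N < x`, `x + max H ≤ 2 N`, such
that the primes in `[x, x + max H]` are exactly the numbers `x + h`, `h ∈ H`, all of them are `≡ a` modulo `q`, and all
the numbers `n - (e (x + h))²` are positive and have at most `r` prime factors, all of them at least `N ^ δ`. -/
theorem result (m : ℕ) (hm : 1 ≤ m) (q : ℕ) (hq : Squarefree q) :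
    ∃ (K B : ℕ) (δ : ℝ), 0 < K ∧ 0 < δ ∧ ∀ A : ℕ, ∃ r : ℕ, ∀ T : Finset ℕ, K ≤ T.card →
      ∀ᶠ n : ℕ in atTop, Even n → ∀ N : ℕ, n ≤ N ^ A → (2 * mult n * N) ^ 2 < n →
      ∀ a : ℕ, IsCoprime ((a : ℤ) * (n - (mult n * a) ^ 2)) (q : ℤ) →
      T.card.choose m ≤ K * {H : Finset ℕ | H ⊆ T ∧ H.card = m ∧
        (N : ℝ) / Real.log N ^ B ≤ (places n N q a r δ H).ncard}.ncard := by
  classical
  obtain ⟨K, B, δ, hK, hδ, hmain⟩ := Pool.Agent.U163.SU.uni_prod 1 2 q hq m hm
  refine ⟨K, B, δ, hK, hδ, fun A => ?_⟩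
  obtain ⟨r, hr⟩ := hmain (A + 6)
  refine ⟨r, fun T hT => ?_⟩
  obtain ⟨N₀, hN₀⟩ := eventually_atTop.1 (hr T hT)
  filter_upwards [eventually_ge_atTop ((N₀ + T.sup id + 3) ^ A + 1)] with n hn
  intro hne N hnN h2N a ha
  have hNbig : N₀ + T.sup id + 3 ≤ N := by
    by_contra hcon
    push Not at hcon
    have := Nat.pow_le_pow_left hcon.le A
    omega
  refine (hN₀ N (by omega) (fun _ => fam n) (fun _ => fam_deg n)
    (fun p hp => by
      obtain ⟨x, hx, hx'⟩ := fam_adm n hne p hp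
      exact ⟨x, hx, fun _ => hx'⟩)
    (fun _ x hx => fam_bd n N A (by omega) hnN x hx)
    (fun _ x _ hx => by
      rw [fam_eval]
      intro h0
      have h1 : (n : ℤ) = (mult n * x) ^ 2 := by linarith
      have h2 : |x| ≤ (N : ℤ) := hx.trans (by exact_mod_cast (by omega : T.sup id ≤ N))
      have h3 : ((mult n : ℤ) * x) ^ 2 ≤ (2 * mult n * N) ^ 2 := by
        rw [← sq_abs]
        have h4 : |(mult n : ℤ) * x| ≤ 2 * mult n * N := by
          rw [abs_mul, Nat.abs_cast]
          have h5 : (0 : ℤ) ≤ mult n := by positivity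
          nlinarith [mul_le_mul_of_nonneg_left h2 h5, mul_nonneg h5 (abs_nonneg x)]
        gcongr
      have h6 : ((2 * mult n * N : ℕ) : ℤ) ^ 2 < n := by exact_mod_cast h2N
      push_cast at h6
      linarith)
    a (fun p hp hpq => by
      have hnd : ¬ (p : ℤ) ∣ (a : ℤ) * (n - (mult n * a) ^ 2) := by
        intro h
        have h1 : (p : ℤ) ∣ (q : ℤ) := Int.natCast_dvd_natCast.2 hpq
        have h2 : IsUnit (p : ℤ) := ha.isUnit_of_dvd' h h1
        rw [Int.isUnit_iff] at h2
        have h3 := hp.one_lt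
        omega
      refine ⟨fun h => hnd (h.mul_right _), fun _ h => hnd ?_⟩
      rw [fam_eval] at h
      exact h.mul_left _)).trans (Nat.mul_le_mul_left _ ?_)
  have heq : ∀ H, Pool.Agent.U163.SU.placesP (fun _ : Fin 1 => fam n) N q a r δ H ⊆
      places n N q a r δ H := by
    rintro H x ⟨h1, h2, h3, h4⟩
    refine ⟨h1, h2, h3, fun h hh => ⟨(h4 h hh).1, ?_⟩⟩
    have h5 := ((h4 h hh).2 0).2
    have h6 : h ≤ H.sup id := Finset.le_sup (f := id) hh
    have h7 : (mult n * (x + h)) ^ 2 < n := by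
      calc (mult n * (x + h)) ^ 2 ≤ (mult n * (2 * N)) ^ 2 := by gcongr; omega
        _ = (2 * mult n * N) ^ 2 := by ring
        _ < n := h2N
    refine ⟨h7, ?_⟩
    rw [fam_eval] at h5
    have h8 : ((n : ℤ) - (mult n * ((x + h : ℕ) : ℤ)) ^ 2).natAbs = n - (mult n * (x + h)) ^ 2 := by
      have : ((n : ℤ) - (mult n * ((x + h : ℕ) : ℤ)) ^ 2) = ((n - (mult n * (x + h)) ^ 2 : ℕ) : ℤ) := by
        rw [Nat.cast_sub h7.le]
        push_cast
        ring
      rw [this, Int.natAbs_natCast]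
    rw [h8] at h5
    exact h5
  have hfin : ∀ P : Finset ℕ → Prop, {H : Finset ℕ | H ⊆ T ∧ H.card = m ∧ P H}.Finite := by
    intro P
    apply (T.powersetCard m).finite_toSet.subset
    rintro H ⟨h1, h2, -⟩
    exact Finset.mem_coe.2 (Finset.mem_powersetCard.2 ⟨h1, h2⟩)
  apply Set.ncard_le_ncard _ (hfin _)
  rintro H ⟨h1, h2, h3⟩
  refine ⟨h1, h2, h3.trans (Nat.cast_le.2 (Set.ncard_le_ncard (heq H) ?_))⟩
  refine (Set.finite_Iic (2 * N)).subset fun y hy => ?_
  have h1 : y + H.sup id ≤ 2 * N := hy.2.1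
  rw [Set.mem_Iic]
  omega

end Pool.Agent.Results.MP_d48457_nt.SquaresOfPrimes
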